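import Pool.Agent.H50.G.B.R529.LD.Surv
/-!
Combinatorial bounds for the survivors.
-/

set_option autoImplicit false

open Finset Filter Topology
open Pool.Agent.H510R2.Maier Pool.Agent.H510R2.Maier.G Pool.Agent.H378R2

namespace Pool.Agent.R529.LD

theorem GG_le' (z : ℕ) (S : Finset ℕ) (T : ℕ) (hT : T < (z + 1) ^ 3) :
    (GG z S T).card ≤ 1 + (PI z T).card + ∑ p ∈ PI z (Nat.sqrt T), (PI z (T / p)).card + ∑ q ∈ S, T / q := by
  classical
  have h1 : GG z S T ⊆ {1} ∪ PI z T ∪ (PI z (Nat.sqrt T)).biUnion (fun p => (PI z (T / p)).image (fun m => p * m)) ∪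
      S.biUnion (fun q => (Icc 1 T).filter (fun h => q ∣ h)) := by
    intro m hm
    have hm1 := Finset.mem_Icc.1 (Finset.mem_filter.1 hm).1
    have hm2 := (Finset.mem_filter.1 hm).2
    rw [Finset.mem_union, Finset.mem_union, Finset.mem_union]
    by_cases hS : ∃ q ∈ S, q ∣ m
    · obtain ⟨q, hq, hd⟩ := hS
      right
      exact Finset.mem_biUnion.2 ⟨q, hq, Finset.mem_filter.2 ⟨Finset.mem_Icc.2 hm1, hd⟩⟩
    · left
      push Not at hS
      have hm3 : ∀ p : ℕ, p.Prime → p ∣ m → z < p := fun p hp hd =>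
        (hm2 p hp hd).resolve_right (fun h => hS p h hd)
      by_cases hone : m = 1
      · left; left; simp [hone]
      by_cases hprime : m.Prime
      · left; right
        exact mem_PI.2 ⟨⟨hm3 m hprime dvd_rfl, hm1.2⟩, hprime⟩
      · right
        have hp := Nat.minFac_prime hone
        have hsq := Nat.minFac_sq_le_self hm1.1 hprime
        set p := m.minFac with hpdef
        have hpd : p ∣ m := Nat.minFac_dvd m
        obtain ⟨k, hk⟩ := hpd
        have hzp : z < p := hm3 p hp ⟨k, hk⟩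
        have hk1 : k ≠ 1 := by
          rintro rfl
          rw [mul_one] at hk
          rw [hk] at hprime
          exact hprime hp
        have hk0 : 0 < k := by
          rcases Nat.eq_zero_or_pos k with h | h
          · rw [h, mul_zero] at hk; omega
          · exact h
        have hkp : k.Prime := by
          by_contra hkn
          have h2 := Nat.minFac_sq_le_self hk0 hkn
          have h3 : z < k.minFac := hm3 _ (Nat.minFac_prime hk1) ((Nat.minFac_dvd k).trans ⟨p, by rw [hk]; ring⟩)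
          have h4 : (z + 1) ^ 3 ≤ m := by
            calc (z + 1) ^ 3 = (z + 1) * (z + 1) ^ 2 := by ring
              _ ≤ p * k.minFac ^ 2 := Nat.mul_le_mul hzp (Nat.pow_le_pow_left h3 2)
              _ ≤ p * k := Nat.mul_le_mul_left _ h2
              _ = m := hk.symm
          omega
        have hzk : z < k := hm3 k hkp ⟨p, by rw [hk]; ring⟩
        have hpk : p * k ≤ T := by rw [← hk]; exact hm1.2
        refine Finset.mem_biUnion.2 ⟨p, mem_PI.2 ⟨⟨hzp, ?_⟩, hp⟩, Finset.mem_image.2 ⟨k, mem_PI.2 ⟨⟨hzk, ?_⟩, hkp⟩, hk.symm⟩⟩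
        · rw [Nat.le_sqrt']
          exact hsq.trans hm1.2
        · rw [Nat.le_div_iff_mul_le hp.pos, mul_comm]
          exact hpk
  refine (Finset.card_le_card h1).trans ?_
  refine (Finset.card_union_le _ _).trans ?_
  apply Nat.add_le_add
  · refine (Finset.card_union_le _ _).trans ?_
    apply Nat.add_le_add
    · refine (Finset.card_union_le _ _).trans ?_
      simp
    · refine Finset.card_biUnion_le.trans ?_
      apply Finset.sum_le_sum
      intro p hp
      exact Finset.card_image_le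
  · refine Finset.card_biUnion_le.trans ?_
    apply Finset.sum_le_sum
    intro p hp
    rw [show (Icc 1 T) = Ioc 0 T from rfl, Nat.Ioc_filter_dvd_card_eq_div]

/-- lower bound for the survivors -/
theorem VV_ge {X D : ℝ} (hD : 1000 ≤ D) (hX : 1 ≤ X) (S : Finset ℕ) (ps Y z : ℕ) (hz : z = ⌊Real.log X / D⌋₊) :
    (PI z Y).card + ∑ p ∈ PI z (Nat.sqrt Y), (PI p (Y / p)).card ≤ VV (WD X D S ps) 0 Y := by
  classical
  have hco : ∀ h : ℕ, 1 ≤ h → (∀ p : ℕ, p.Prime → p ∣ h → z < p) → (0 + h).Coprime (WD X D S ps) := by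
    intro h h1 h2
    rw [zero_add]
    unfold WD
    apply Nat.Coprime.prod_right
    intro q hq
    have hq2 := (mem_PD hD hX).1 hq
    rw [Nat.coprime_comm, Nat.Prime.coprime_iff_not_dvd hq2.2.1]
    intro hd
    have := h2 q hq2.2.1 hd
    rw [hz] at this
    omega
  have hdisj : ∀ p ∈ PI z (Nat.sqrt Y), ∀ p' ∈ PI z (Nat.sqrt Y), p ≠ p' →
      Disjoint ((PI p (Y / p)).image (fun m => p * m)) ((PI p' (Y / p')).image (fun m => p' * m)) := by
    intro p hp p' hp' hne
    rw [Finset.disjoint_left]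
    intro x hx hx'
    obtain ⟨m, hm, rfl⟩ := Finset.mem_image.1 hx
    obtain ⟨m', hm', he⟩ := Finset.mem_image.1 hx'
    have hpp := (mem_PI.1 hp).2
    have hpp' := (mem_PI.1 hp').2
    have hmp := (mem_PI.1 hm)
    have hmp' := (mem_PI.1 hm')
    have h1 : p ∣ p' * m' := ⟨m, he⟩
    rcases (Nat.Prime.dvd_mul hpp).1 h1 with h | h
    · exact hne ((Nat.prime_dvd_prime_iff_eq hpp hpp').1 h)
    · have h2 := (Nat.prime_dvd_prime_iff_eq hpp hmp'.2).1 h
      have h3 : p' ∣ p * m := ⟨m', he.symm⟩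
      rcases (Nat.Prime.dvd_mul hpp').1 h3 with h4 | h4
      · exact hne ((Nat.prime_dvd_prime_iff_eq hpp' hpp).1 h4).symm
      · have h5 := (Nat.prime_dvd_prime_iff_eq hpp' hmp.2).1 h4
        have h6 := hmp.1.1
        have h7 := hmp'.1.1
        omega
  have hcard : ∑ p ∈ PI z (Nat.sqrt Y), (PI p (Y / p)).card =
      ((PI z (Nat.sqrt Y)).biUnion (fun p => (PI p (Y / p)).image (fun m => p * m))).card := by
    rw [Finset.card_biUnion hdisj]
    apply Finset.sum_congr rfl
    intro q hq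
    rw [Finset.card_image_of_injective]
    intro a b hab
    exact Nat.eq_of_mul_eq_mul_left (mem_PI.1 hq).2.pos hab
  rw [hcard, ← Finset.card_union_of_disjoint]
  · unfold VV
    apply Finset.card_le_card
    intro x hx
    rw [Finset.mem_union] at hx
    rcases hx with hx | hx
    · have h1 := mem_PI.1 hx
      refine Finset.mem_filter.2 ⟨Finset.mem_Icc.2 ⟨h1.2.one_lt.le, h1.1.2⟩, hco x h1.2.one_lt.le ?_⟩
      intro p hp hd
      rw [(Nat.prime_dvd_prime_iff_eq hp h1.2).1 hd]
      exact h1.1.1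
    · obtain ⟨p, hp, hx⟩ := Finset.mem_biUnion.1 hx
      obtain ⟨m, hm, rfl⟩ := Finset.mem_image.1 hx
      have h1 := mem_PI.1 hp
      have h2 := mem_PI.1 hm
      have h3 : 1 ≤ p * m := Nat.mul_pos h1.2.pos h2.2.pos
      refine Finset.mem_filter.2 ⟨Finset.mem_Icc.2 ⟨h3, ?_⟩, hco _ h3 ?_⟩
      · calc p * m ≤ p * (Y / p) := Nat.mul_le_mul_left _ h2.1.2
          _ ≤ Y := Nat.mul_div_le _ _
      · intro q hq hd
        rcases (Nat.Prime.dvd_mul hq).1 hd with h | h
        · rw [(Nat.prime_dvd_prime_iff_eq hq h1.2).1 h]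
          exact h1.1.1
        · rw [(Nat.prime_dvd_prime_iff_eq hq h2.2).1 h]
          have := h1.1.1
          have := h2.1.1
          omega
  · rw [Finset.disjoint_left]
    intro x hx hx'
    obtain ⟨p, hp, hx'⟩ := Finset.mem_biUnion.1 hx'
    obtain ⟨m, hm, rfl⟩ := Finset.mem_image.1 hx'
    have h1 := (mem_PI.1 hx).2
    have h2 := (mem_PI.1 hp).2
    have h3 := (mem_PI.1 hm).2
    exact Nat.not_prime_mul h2.one_lt.ne' h3.one_lt.ne' h1

theorem card_PI_ge (a b : ℕ) : (Nat.primeCounting b : ℝ) - Nat.primeCounting a ≤ ((PI a b).card : ℝ) := by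
  have h : Nat.primeCounting b ≤ Nat.primeCounting a + (PI a b).card := by
    rw [Nat.primeCounting, Nat.primeCounting', Nat.count_eq_card_filter_range,
      Nat.primeCounting, Nat.primeCounting', Nat.count_eq_card_filter_range]
    refine le_trans (Finset.card_le_card ?_) (Finset.card_union_le _ _)
    intro p hp
    rw [Finset.mem_filter, Finset.mem_range] at hp
    rw [Finset.mem_union, Finset.mem_filter, Finset.mem_range, mem_PI]
    by_cases h : p < a + 1
    · exact Or.inl ⟨h, hp.2⟩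
    · exact Or.inr ⟨⟨by omega, by omega⟩, hp.2⟩
  have h' : (Nat.primeCounting b : ℝ) ≤ Nat.primeCounting a + (PI a b).card := by exact_mod_cast h
  linarith

/-- the product over the modulus -/
theorem BE_le {X D : ℝ} (hD : 1000 ≤ D) (hX : 1 ≤ X) (S : Finset ℕ) (ps Z z : ℕ) (hz : z = ⌊Real.log X / D⌋₊)
    (hps : GoodP Z ps) (hZ : 0 < Z) (s : ℝ) (hs : ∑ q ∈ S, (1 : ℝ) / q + 1 / Z ≤ s) :
    (1 - s) * (QQ z)⁻¹ ≤ (BE (PD X D S ps))⁻¹ := by
  classical
  set A := PD X D S ps with hA
  set P := (Icc 1 z).filter Nat.Prime with hP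
  set R := P.filter (fun p => p ∈ S ∨ p = ps) with hR
  have hPAR : P = A ∪ R := by
    ext p
    have hm : p ∈ P ↔ (1 ≤ p ∧ p ≤ z) ∧ p.Prime := by
      rw [hP, Finset.mem_filter, Finset.mem_Icc]
    have hmR : p ∈ R ↔ p ∈ P ∧ (p ∈ S ∨ p = ps) := by rw [hR, Finset.mem_filter]
    have hmA : p ∈ A ↔ p ≤ z ∧ p.Prime ∧ p ∉ S ∧ p ≠ ps := by rw [hA, mem_PD hD hX, ← hz]
    rw [Finset.mem_union, hmR, hmA, hm]
    constructor
    · rintro ⟨⟨h1, h2⟩, h3⟩
      by_cases h4 : p ∈ S ∨ p = ps
      · exact Or.inr ⟨⟨⟨h1, h2⟩, h3⟩, h4⟩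
      · push Not at h4
        exact Or.inl ⟨h2, h3, h4.1, h4.2⟩
    · rintro (⟨h2, h3, _, _⟩ | ⟨h, _⟩)
      · exact ⟨⟨h3.one_lt.le, h2⟩, h3⟩
      · exact h
  have hdis : Disjoint A R := by
    rw [Finset.disjoint_left]
    intro p hp hp'
    rw [hA, mem_PD hD hX] at hp
    rw [hR, Finset.mem_filter] at hp'
    rcases hp'.2 with h | h
    · exact hp.2.2.1 h
    · exact hp.2.2.2 h
  have hprod : QQ z = BE A * ∏ p ∈ R, (1 - 1 / (p : ℝ)) := by
    unfold QQ BE
    rw [← hP, hPAR, Finset.prod_union hdis]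
  have hRs : 1 - s ≤ ∏ p ∈ R, (1 - 1 / (p : ℝ)) := by
    have h1 := weier R (fun p => 1 / (p : ℝ)) (fun i _ => by positivity) (fun i hi => by
      have hi2 := (Finset.mem_filter.1 (Finset.mem_filter.1 hi).1).2.one_lt.le
      have h2 : (1 : ℝ) ≤ i := by exact_mod_cast hi2
      rw [div_le_one (by linarith)]
      exact h2)
    refine le_trans ?_ h1
    have h2 : ∑ p ∈ R, (1 : ℝ) / p ≤ ∑ q ∈ S, (1 : ℝ) / q + 1 / Z := by
      have h3 : R ⊆ S ∪ (R.filter (fun p => p = ps)) := by
        intro p hp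
        rw [Finset.mem_union, Finset.mem_filter]
        rcases (Finset.mem_filter.1 hp).2 with h | h
        · exact Or.inl h
        · exact Or.inr ⟨hp, h⟩
      have h4 : ∑ p ∈ R.filter (fun p => p = ps), (1 : ℝ) / p ≤ 1 / Z := by
        rcases hps with h5 | h5
        · have h6 : R.filter (fun p => p = ps) = ∅ := by
            rw [Finset.filter_eq_empty_iff]
            intro p hp h7
            have h8 := (Finset.mem_filter.1 (Finset.mem_filter.1 hp).1).2
            rw [h7, h5] at h8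
            exact Nat.not_prime_one h8
          rw [h6, Finset.sum_empty]
          positivity
        · have h6 : R.filter (fun p => p = ps) ⊆ {ps} := by
            intro p hp
            rw [Finset.mem_singleton]
            exact (Finset.mem_filter.1 hp).2
          refine (Finset.sum_le_sum_of_subset_of_nonneg h6 fun _ _ _ => by positivity).trans ?_
          rw [Finset.sum_singleton]
          apply one_div_le_one_div_of_le (by exact_mod_cast hZ)
          exact_mod_cast h5.2.le
      calc ∑ p ∈ R, (1 : ℝ) / p ≤ ∑ p ∈ S ∪ (R.filter (fun p => p = ps)), (1 : ℝ) / p :=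
            Finset.sum_le_sum_of_subset_of_nonneg h3 fun _ _ _ => by positivity
        _ ≤ ∑ p ∈ S, (1 : ℝ) / p + ∑ p ∈ R.filter (fun p => p = ps), (1 : ℝ) / p := by
            rw [← Finset.sum_union_inter]
            have : 0 ≤ ∑ x ∈ S ∩ R.filter (fun p => p = ps), (1 : ℝ) / (x : ℝ) :=
              Finset.sum_nonneg fun _ _ => by positivity
            linarith
        _ ≤ _ := by linarith
    linarith
  have hB0 : 0 < BE A := BE_pos (fun p hp => PD_prime hp)
  have hQ0 := QQ_pos z
  rw [← div_eq_mul_inv, inv_eq_one_div, div_le_div_iff₀ hQ0 hB0, hprod, one_mul, mul_comm]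
  exact mul_le_mul_of_nonneg_left hRs hB0.le

end Pool.Agent.R529.LD
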