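import Mathlib
import Pool.Agent.H50.G.S.H510R2.Maier.MA9
/-!
`∑ π(Y / p)` over primes between powers of `log X`.
-/

set_option autoImplicit false

open Finset Filter Topology
open Pool.Agent.H510R2.Maier

namespace Pool.Agent.R529.LD

/-- continuity at `0`, upper bound -/
theorem small_lt (f : ℝ → ℝ) (hf : ContinuousAt f 0) (c δ0 : ℝ) (hδ0 : 0 < δ0) (h : f 0 < c) :
    ∃ δ : ℝ, 0 < δ ∧ δ < δ0 ∧ f δ < c := by
  have h1 : ∀ᶠ x in 𝓝 (0 : ℝ), f x < c := hf.eventually_lt_const h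
  obtain ⟨r, hr, h2⟩ := Metric.eventually_nhds_iff.1 h1
  refine ⟨min (r / 2) (δ0 / 2), by positivity, (min_le_right _ _).trans_lt (by linarith), h2 ?_⟩
  rw [Real.dist_eq, sub_zero, abs_of_nonneg (by positivity)]
  exact (min_le_left _ _).trans_lt (by linarith)

/-- continuity at `0`, lower bound -/
theorem small_gt (f : ℝ → ℝ) (hf : ContinuousAt f 0) (c δ0 : ℝ) (hδ0 : 0 < δ0) (h : c < f 0) :
    ∃ δ : ℝ, 0 < δ ∧ δ < δ0 ∧ c < f δ := by
  have h1 : ∀ᶠ x in 𝓝 (0 : ℝ), c < f x := hf.eventually_const_lt h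
  obtain ⟨r, hr, h2⟩ := Metric.eventually_nhds_iff.1 h1
  refine ⟨min (r / 2) (δ0 / 2), by positivity, (min_le_right _ _).trans_lt (by linarith), h2 ?_⟩
  rw [Real.dist_eq, sub_zero, abs_of_nonneg (by positivity)]
  exact (min_le_left _ _).trans_lt (by linarith)

theorem pi_lo (δ : ℝ) (hδ : 0 < δ) : ∀ᶠ N : ℕ in atTop,
    (1 - δ) * (N / Real.log N) ≤ (Nat.primeCounting N : ℝ) := by
  have h1 := Pool.Agent.Helper601.PNT.pi_tendsto.comp (tendsto_natCast_atTop_atTop (R := ℝ))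
  have h2 := h1.eventually_const_lt (show (1 - δ : ℝ) < 1 by linarith)
  filter_upwards [h2, eventually_ge_atTop 2] with N h3 h4
  simp only [Function.comp, Nat.floor_natCast] at h3
  have h5 : (2 : ℝ) ≤ N := by exact_mod_cast h4
  have h6 : 0 < Real.log N := Real.log_pos (by linarith)
  have h7 : (0 : ℝ) < N := by linarith
  rw [lt_div_iff₀ h7] at h3
  rw [mul_div_assoc', div_le_iff₀ h6]
  exact h3.le

/-- powers of `L` -/
theorem ev_rpow (a b C : ℝ) (h : a < b) : ∀ᶠ L : ℝ in atTop, C * L ^ a ≤ L ^ b := by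
  have h1 : Tendsto (fun M : ℝ => M ^ (b - a)) atTop atTop := tendsto_rpow_atTop (by linarith)
  filter_upwards [h1.eventually_ge_atTop C, eventually_gt_atTop 0] with M hM hM0
  have h2 : 0 < M ^ a := Real.rpow_pos_of_pos hM0 a
  calc C * M ^ a ≤ M ^ (b - a) * M ^ a := mul_le_mul_of_nonneg_right hM h2.le
    _ = M ^ b := by rw [← Real.rpow_add hM0]; congr 1; ring

theorem div_nat_bd {Y p : ℕ} (_hp : 0 < p) : (Y : ℝ) / p - 1 ≤ ((Y / p : ℕ) : ℝ) ∧
    ((Y / p : ℕ) : ℝ) ≤ (Y : ℝ) / p := by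
  refine ⟨?_, Nat.cast_div_le⟩
  have h : (Y : ℝ) / p < (Y / p : ℕ) + 1 := by
    rw [← Nat.floor_div_eq_div (K := ℝ)]
    exact Nat.lt_floor_add_one _
  linarith

/-- one term, upper bound -/
theorem term_up (t e' δ : ℝ) (hδ : 0 < δ) (hδ1 : δ < (t - e') / 2) (hδ2 : δ < 1) :
    ∀ᶠ L : ℝ in atTop, ∀ Y p : ℕ, (1 - δ) * L ^ t ≤ Y → (Y : ℝ) ≤ (1 + δ) * L ^ t → 0 < p →
      (p : ℝ) ≤ L ^ e' →
      (Nat.primeCounting (Y / p) : ℝ) ≤ (1 + δ) ^ 2 / (t - e' - δ) * (L ^ t / Real.log L) * (1 / p) := by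
  obtain ⟨N0, hN0⟩ := eventually_atTop.1 (pi_ev δ hδ)
  filter_upwards [ev_rpow (t - e' - δ) (t - e') (2 / (1 - δ)) (by linarith), ev_rpow 0 (t - e' - δ) (N0 + 2) (by linarith),
    eventually_gt_atTop (1 : ℝ)] with L h1 h2 h3
  intro Y p hY1 hY2 hp hpL
  rw [Real.rpow_zero, mul_one] at h2
  have hL0 : 0 < L := by linarith
  have hlog := Real.log_pos h3
  have hp0 : (0 : ℝ) < p := by exact_mod_cast hp
  obtain ⟨b1, b2⟩ := div_nat_bd (Y := Y) hp
  have hδ' : 0 < 1 - δ := by linarith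
  have b3 : 2 * L ^ (t - e' - δ) ≤ (Y : ℝ) / p := by
    rw [le_div_iff₀ hp0]
    calc 2 * L ^ (t - e' - δ) * p ≤ 2 * L ^ (t - e' - δ) * L ^ e' := by gcongr
      _ = (1 - δ) * ((2 / (1 - δ) * L ^ (t - e' - δ)) * L ^ e') := by field_simp
      _ ≤ (1 - δ) * (L ^ (t - e') * L ^ e') := by gcongr
      _ = (1 - δ) * L ^ t := by rw [← Real.rpow_add hL0]; congr 2; ring
      _ ≤ Y := hY1
  have b4 : L ^ (t - e' - δ) ≤ ((Y / p : ℕ) : ℝ) := by
    have : (0 : ℝ) ≤ N0 := Nat.cast_nonneg _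
    linarith
  have b5 : N0 ≤ Y / p := by
    have : (N0 : ℝ) ≤ ((Y / p : ℕ) : ℝ) := by linarith
    exact_mod_cast this
  have b6 := hN0 _ b5
  have b7 : (t - e' - δ) * Real.log L ≤ Real.log ((Y / p : ℕ) : ℝ) := by
    rw [← Real.log_rpow hL0]
    exact Real.log_le_log (by positivity) b4
  have b8 : 0 < (t - e' - δ) * Real.log L := mul_pos (by linarith) hlog
  calc (Nat.primeCounting (Y / p) : ℝ) ≤ (1 + δ) * (((Y / p : ℕ) : ℝ) / Real.log ((Y / p : ℕ) : ℝ)) := b6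
    _ ≤ (1 + δ) * (((1 + δ) * L ^ t / p) / ((t - e' - δ) * Real.log L)) := by
        have : ((Y / p : ℕ) : ℝ) ≤ (1 + δ) * L ^ t / p := b2.trans (by gcongr)
        gcongr
    _ = _ := by
        have : t - e' - δ ≠ 0 := by linarith
        field_simp

/-- one term, lower bound -/
theorem term_lo (t e e' c δ : ℝ) (hee : e ≤ e') (het : e' < t) (hc : 0 < c) (hδ : 0 < δ) (hδ2 : δ < 1) :
    ∀ᶠ L : ℝ in atTop, ∀ Y p : ℕ, (1 - δ) * L ^ t ≤ Y → (Y : ℝ) ≤ (1 + δ) * L ^ t →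
      c * L ^ e ≤ p → (p : ℝ) ≤ L ^ e' →
      (1 - δ) ^ 3 / (t - e + δ) * (L ^ t / Real.log L) * (1 / p) ≤ (Nat.primeCounting (Y / p) : ℝ) := by
  obtain ⟨N0, hN0⟩ := eventually_atTop.1 (pi_lo δ hδ)
  have hδ' : 0 < 1 - δ := by linarith
  filter_upwards [ev_rpow 0 (t - e') (max (1 / δ) (N0 + 3) / (1 - δ)) (by linarith), ev_rpow (t - e) (t - e + δ) (2 / c) (by linarith),
    eventually_gt_atTop (1 : ℝ)] with L h1 h2 h3
  intro Y p hY1 hY2 hpc hpL
  rw [Real.rpow_zero, mul_one, div_le_iff₀ hδ'] at h1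
  have hL0 : 0 < L := by linarith
  have hlog := Real.log_pos h3
  have hp0 : (0 : ℝ) < p := lt_of_lt_of_le (by positivity) hpc
  have hp : 0 < p := by exact_mod_cast hp0
  obtain ⟨b1, b2⟩ := div_nat_bd (Y := Y) hp
  have b3 : (1 - δ) * L ^ (t - e') ≤ (Y : ℝ) / p := by
    rw [le_div_iff₀ hp0]
    calc (1 - δ) * L ^ (t - e') * p ≤ (1 - δ) * L ^ (t - e') * L ^ e' := by gcongr
      _ = (1 - δ) * (L ^ (t - e') * L ^ e') := by ring
      _ = (1 - δ) * L ^ t := by rw [← Real.rpow_add hL0]; congr 2; ring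
      _ ≤ Y := hY1
  have hA : 1 / δ ≤ (Y : ℝ) / p := by
    have := le_max_left (1 / δ) ((N0 : ℝ) + 3)
    linarith
  have hB : (N0 : ℝ) + 3 ≤ (Y : ℝ) / p := by
    have := le_max_right (1 / δ) ((N0 : ℝ) + 3)
    linarith
  have hA' : 1 ≤ δ * ((Y : ℝ) / p) := by
    rw [div_le_iff₀ hδ] at hA
    linarith
  have b4 : (1 - δ) * ((Y : ℝ) / p) ≤ ((Y / p : ℕ) : ℝ) := by linarith
  have b5 : N0 ≤ Y / p := by
    have : (N0 : ℝ) ≤ ((Y / p : ℕ) : ℝ) := by linarith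
    exact_mod_cast this
  have b6 := hN0 _ b5
  have b9 : (2 : ℝ) ≤ ((Y / p : ℕ) : ℝ) := by
    have : (0 : ℝ) ≤ N0 := Nat.cast_nonneg _
    linarith
  have b7 : Real.log ((Y / p : ℕ) : ℝ) ≤ (t - e + δ) * Real.log L := by
    rw [← Real.log_rpow hL0]
    apply Real.log_le_log (by linarith)
    refine b2.trans ?_
    rw [div_le_iff₀ hp0]
    calc (Y : ℝ) ≤ (1 + δ) * L ^ t := hY2
      _ ≤ 2 * L ^ t := by gcongr; linarith
      _ = (2 / c * L ^ (t - e)) * (c * L ^ e) := by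
          have : L ^ t = L ^ (t - e) * L ^ e := by rw [← Real.rpow_add hL0]; congr 1; ring
          rw [this]; field_simp
      _ ≤ L ^ (t - e + δ) * p := by gcongr
  have b8 : 0 < Real.log ((Y / p : ℕ) : ℝ) := Real.log_pos (by linarith)
  calc (1 - δ) ^ 3 / (t - e + δ) * (L ^ t / Real.log L) * (1 / p)
      = (1 - δ) * (((1 - δ) * ((1 - δ) * L ^ t / p)) / ((t - e + δ) * Real.log L)) := by
        have : t - e + δ ≠ 0 := by linarith
        field_simp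
    _ ≤ (1 - δ) * (((1 - δ) * ((Y : ℝ) / p)) / Real.log ((Y / p : ℕ) : ℝ)) := by
        gcongr
    _ ≤ (1 - δ) * (((Y / p : ℕ) : ℝ) / Real.log ((Y / p : ℕ) : ℝ)) := by gcongr
    _ ≤ _ := b6

/-- the sum of `1 / p` over a cell -/
theorem cell_inv (e e' c δ : ℝ) (he : 0 < e) (hee : e ≤ e') (hc : 0 < c) (hc1 : c ≤ 1) (hδ : 0 < δ) :
    ∀ᶠ L : ℝ in atTop, |∑ p ∈ PI ⌊c * L ^ e⌋₊ ⌊L ^ e'⌋₊, (1 : ℝ) / p - Real.log (e' / e)| ≤ δ := by
  have h1 := R1_cell 1 c e' e one_pos hc (by linarith) he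
  have h2 := h1.eventually (Metric.closedBall_mem_nhds _ hδ)
  filter_upwards [h2, eventually_ge_atTop (1 : ℝ)] with L h3 h4
  rw [one_mul, Real.dist_eq] at h3
  have h5 : ⌊c * L ^ e⌋₊ ≤ ⌊L ^ e'⌋₊ := by
    apply Nat.floor_le_floor
    calc c * L ^ e ≤ 1 * L ^ e' := by
          apply mul_le_mul hc1 (Real.rpow_le_rpow_of_exponent_le h4 hee) (by positivity) one_pos.le
      _ = _ := one_mul _
  rw [sum_PI_inv h5]
  exact h3

/-- the sum over a cell, upper bound -/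
theorem cell_up (t e e' c δ : ℝ) (he : 0 < e) (hee : e ≤ e') (het : e' < t) (hc : 0 < c) (hc1 : c ≤ 1) (hδ : 0 < δ)
    (Yf : ℝ → ℕ) (hY : Tendsto (fun L : ℝ => (Yf L : ℝ) / L ^ t) atTop (𝓝 1)) :
    ∀ᶠ L : ℝ in atTop, ∑ p ∈ PI ⌊c * L ^ e⌋₊ ⌊L ^ e'⌋₊, (Nat.primeCounting (Yf L / p) : ℝ) ≤
      (Real.log (e' / e) / (t - e') + δ) * (L ^ t / Real.log L) := by
  obtain ⟨η, hη0, hη1, hη2⟩ := small_lt (fun x => (1 + x) ^ 2 / (t - e' - x) * (Real.log (e' / e) + x)) (by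
      have h0 : t - e' - 0 ≠ 0 := by
        rw [sub_zero]; exact (sub_pos.2 het).ne'
      fun_prop (disch := assumption)) (Real.log (e' / e) / (t - e') + δ)
      (min 1 ((t - e') / 2)) (lt_min one_pos (by linarith)) (by
      simp only [add_zero, one_pow, sub_zero]
      rw [one_div_mul_eq_div]
      linarith)
  have hη3 : η < 1 := hη1.trans_le (min_le_left _ _)
  have hη4 : η < (t - e') / 2 := hη1.trans_le (min_le_right _ _)
  have hYa := hY.eventually (Ioo_mem_nhds (show 1 - η < 1 by linarith) (show 1 < 1 + η by linarith))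
  filter_upwards [term_up t e' η hη0 hη4 hη3, cell_inv e e' c η he hee hc hc1 hη0, hYa,
    eventually_gt_atTop (1 : ℝ)] with L h1 h2 h3 h4
  have hL0 : 0 < L := by linarith
  have hlog := Real.log_pos h4
  have hLt : 0 < L ^ t := by positivity
  have hY1 : (1 - η) * L ^ t ≤ Yf L := by
    have := h3.1.le
    rwa [le_div_iff₀ hLt] at this
  have hY2 : (Yf L : ℝ) ≤ (1 + η) * L ^ t := by
    have := h3.2.le
    rwa [div_le_iff₀ hLt] at this
  calc ∑ p ∈ PI ⌊c * L ^ e⌋₊ ⌊L ^ e'⌋₊, (Nat.primeCounting (Yf L / p) : ℝ)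
      ≤ ∑ p ∈ PI ⌊c * L ^ e⌋₊ ⌊L ^ e'⌋₊, (1 + η) ^ 2 / (t - e' - η) * (L ^ t / Real.log L) * (1 / p) := by
        apply Finset.sum_le_sum
        intro p hp
        obtain ⟨⟨p1, p2⟩, p3⟩ := mem_PI.1 hp
        exact h1 (Yf L) p hY1 hY2 p3.pos ((Nat.cast_le.2 p2).trans (Nat.floor_le (by positivity)))
    _ = (1 + η) ^ 2 / (t - e' - η) * (L ^ t / Real.log L) * ∑ p ∈ PI ⌊c * L ^ e⌋₊ ⌊L ^ e'⌋₊, (1 : ℝ) / p := by
        rw [Finset.mul_sum]
    _ ≤ (1 + η) ^ 2 / (t - e' - η) * (L ^ t / Real.log L) * (Real.log (e' / e) + η) := by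
        have h5 := (abs_le.1 h2).2
        have h6 : 0 < t - e' - η := by linarith
        gcongr
        linarith
    _ = ((1 + η) ^ 2 / (t - e' - η) * (Real.log (e' / e) + η)) * (L ^ t / Real.log L) := by ring
    _ ≤ _ := by gcongr

/-- the sum over a cell, lower bound -/
theorem cell_lo (t e e' c δ : ℝ) (he : 0 < e) (hee : e ≤ e') (het : e' < t) (hc : 0 < c) (hc1 : c ≤ 1) (hδ : 0 < δ)
    (Yf : ℝ → ℕ) (hY : Tendsto (fun L : ℝ => (Yf L : ℝ) / L ^ t) atTop (𝓝 1)) :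
    ∀ᶠ L : ℝ in atTop, (Real.log (e' / e) / (t - e) - δ) * (L ^ t / Real.log L) ≤
      ∑ p ∈ PI ⌊c * L ^ e⌋₊ ⌊L ^ e'⌋₊, (Nat.primeCounting (Yf L / p) : ℝ) := by
  have hte : 0 < t - e := by linarith
  obtain ⟨η, hη0, hη1, hη2⟩ := small_gt (fun x => (1 - x) ^ 3 / (t - e + x) * (Real.log (e' / e) - x)) (by
      have h0 : t - e + 0 ≠ 0 := by
        rw [add_zero]; exact hte.ne'
      fun_prop (disch := assumption)) (Real.log (e' / e) / (t - e) - δ)
      (min 1 ((t - e') / 2)) (lt_min one_pos (by linarith)) (by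
      simp only [add_zero, one_pow, sub_zero]
      rw [one_div_mul_eq_div]
      linarith)
  have hη3 : η < 1 := hη1.trans_le (min_le_left _ _)
  have hYa := hY.eventually (Ioo_mem_nhds (show 1 - η < 1 by linarith) (show 1 < 1 + η by linarith))
  filter_upwards [term_lo t e e' c η hee het hc hη0 hη3, cell_inv e e' c η he hee hc hc1 hη0, hYa,
    eventually_gt_atTop (1 : ℝ)] with L h1 h2 h3 h4
  have hL0 : 0 < L := by linarith
  have hlog := Real.log_pos h4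
  have hLt : 0 < L ^ t := by positivity
  have hY1 : (1 - η) * L ^ t ≤ Yf L := by
    have := h3.1.le
    rwa [le_div_iff₀ hLt] at this
  have hY2 : (Yf L : ℝ) ≤ (1 + η) * L ^ t := by
    have := h3.2.le
    rwa [div_le_iff₀ hLt] at this
  calc (Real.log (e' / e) / (t - e) - δ) * (L ^ t / Real.log L)
      ≤ ((1 - η) ^ 3 / (t - e + η) * (Real.log (e' / e) - η)) * (L ^ t / Real.log L) := by gcongr
    _ = (1 - η) ^ 3 / (t - e + η) * (L ^ t / Real.log L) * (Real.log (e' / e) - η) := by ring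
    _ ≤ (1 - η) ^ 3 / (t - e + η) * (L ^ t / Real.log L) * ∑ p ∈ PI ⌊c * L ^ e⌋₊ ⌊L ^ e'⌋₊, (1 : ℝ) / p := by
        have h5 := (abs_le.1 h2).1
        have h7 : 0 < 1 - η := by linarith
        have h8 : 0 ≤ (1 - η) ^ 3 / (t - e + η) * (L ^ t / Real.log L) := by positivity
        exact mul_le_mul_of_nonneg_left (by linarith) h8
    _ = ∑ p ∈ PI ⌊c * L ^ e⌋₊ ⌊L ^ e'⌋₊, (1 - η) ^ 3 / (t - e + η) * (L ^ t / Real.log L) * (1 / p) := by
        rw [Finset.mul_sum]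
    _ ≤ _ := by
        apply Finset.sum_le_sum
        intro p hp
        obtain ⟨⟨p1, p2⟩, p3⟩ := mem_PI.1 hp
        refine h1 (Yf L) p hY1 hY2 ?_ ((Nat.cast_le.2 p2).trans (Nat.floor_le (by positivity)))
        have := (Nat.floor_lt (by positivity)).1 p1
        exact this.le

end Pool.Agent.R529.LD
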