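import Pool.Agent.H50.G.B.R529.LD.Cell
/-!
The asymptotic formula for `∑ π(Y / p)`.
-/

set_option autoImplicit false

open Finset Filter Topology
open Pool.Agent.H510R2.Maier

namespace Pool.Agent.R529.LD

/-- `∫_e^e' ds / (s (t - s))` -/
noncomputable def J (t e e' : ℝ) : ℝ := (Real.log (e' / e) + Real.log ((t - e) / (t - e'))) / t

theorem J_self (t e : ℝ) (he : 0 < e) (het : e < t) : J t e e = 0 := by
  unfold J
  rw [div_self he.ne', div_self (sub_pos.2 het).ne', Real.log_one, add_zero, zero_div]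

theorem J_add (t e e' e'' : ℝ) (he : 0 < e) (he' : 0 < e') (he'' : 0 < e'') (h : e < t) (h' : e' < t)
    (h'' : e'' < t) : J t e e' + J t e' e'' = J t e e'' := by
  unfold J
  have h1 := sub_pos.2 h
  have h2 := sub_pos.2 h'
  have h3 := sub_pos.2 h''
  rw [Real.log_div he'.ne' he.ne', Real.log_div he''.ne' he'.ne', Real.log_div he''.ne' he.ne',
    Real.log_div h1.ne' h2.ne', Real.log_div h2.ne' h3.ne', Real.log_div h1.ne' h3.ne']
  ring

theorem J_low (t e e' : ℝ) (he : 0 < e) (hee : e ≤ e') (het : e' < t) :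
    Real.log (e' / e) / (t - e) ≤ J t e e' := by
  have h1 : 0 < t - e := by linarith
  have h2 : 0 < t - e' := by linarith
  have ht : 0 < t := by linarith
  have he' : 0 < e' := by linarith
  have h3 : Real.log (e' / e) ≤ (e' - e) / e := by
    have := Real.log_le_sub_one_of_pos (show 0 < e' / e by positivity)
    calc Real.log (e' / e) ≤ e' / e - 1 := this
      _ = _ := by field_simp
  have h4 : (e' - e) / (t - e) ≤ Real.log ((t - e) / (t - e')) := by
    have := Real.one_sub_inv_le_log_of_pos (show 0 < (t - e) / (t - e') by positivity)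
    calc (e' - e) / (t - e) = 1 - ((t - e) / (t - e'))⁻¹ := by field_simp; ring
      _ ≤ _ := this
  unfold J
  rw [div_le_div_iff₀ h1 ht]
  have h5 : e * Real.log (e' / e) ≤ (t - e) * Real.log ((t - e) / (t - e')) := by
    calc e * Real.log (e' / e) ≤ e * ((e' - e) / e) := by gcongr
      _ = (t - e) * ((e' - e) / (t - e)) := by field_simp
      _ ≤ _ := by gcongr
  nlinarith only [h5]

theorem J_up (t e e' : ℝ) (he : 0 < e) (hee : e ≤ e') (het : e' < t) :
    J t e e' ≤ Real.log (e' / e) / (t - e') := by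
  have h1 : 0 < t - e := by linarith
  have h2 : 0 < t - e' := by linarith
  have ht : 0 < t := by linarith
  have he' : 0 < e' := by linarith
  have h3 : (e' - e) / e' ≤ Real.log (e' / e) := by
    have := Real.one_sub_inv_le_log_of_pos (show 0 < e' / e by positivity)
    calc (e' - e) / e' = 1 - (e' / e)⁻¹ := by field_simp
      _ ≤ _ := this
  have h4 : Real.log ((t - e) / (t - e')) ≤ (e' - e) / (t - e') := by
    have := Real.log_le_sub_one_of_pos (show 0 < (t - e) / (t - e') by positivity)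
    calc Real.log ((t - e) / (t - e')) ≤ (t - e) / (t - e') - 1 := this
      _ = _ := by field_simp; ring
  unfold J
  rw [div_le_div_iff₀ ht h2]
  have h5 : (t - e') * Real.log ((t - e) / (t - e')) ≤ e' * Real.log (e' / e) := by
    calc (t - e') * Real.log ((t - e) / (t - e')) ≤ (t - e') * ((e' - e) / (t - e')) := by gcongr
      _ = e' * ((e' - e) / e') := by field_simp
      _ ≤ _ := by gcongr
  nlinarith only [h5]

/-- additivity of the sums -/
theorem sum_split (f : ℕ → ℝ) {a b c : ℕ} (hab : a ≤ b) (hbc : b ≤ c) :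
    ∑ p ∈ PI a c, f p = ∑ p ∈ PI a b, f p + ∑ p ∈ PI b c, f p := by
  rw [sum_PI f (hab.trans hbc), sum_PI f hab, sum_PI f hbc]
  ring

theorem floor_mono {L e e' c : ℝ} (hL : 1 ≤ L) (hee : e ≤ e') (hc : c ≤ 1) :
    ⌊c * L ^ e⌋₊ ≤ ⌊L ^ e'⌋₊ := by
  apply Nat.floor_le_floor
  have h0 : 0 ≤ L ^ e := by positivity
  calc c * L ^ e ≤ 1 * L ^ e := mul_le_mul_of_nonneg_right hc h0
    _ = L ^ e := one_mul _
    _ ≤ L ^ e' := Real.rpow_le_rpow_of_exponent_le hL hee

/-- the sum over several cells, upper bound -/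
theorem sum_up (t e e' c δ : ℝ) (he : 0 < e) (hee : e ≤ e') (het : e' < t) (hc : 0 < c) (hc1 : c ≤ 1) (hδ : 0 < δ)
    (Yf : ℝ → ℕ) (hY : Tendsto (fun L : ℝ => (Yf L : ℝ) / L ^ t) atTop (𝓝 1)) :
    ∀ᶠ L : ℝ in atTop, ∑ p ∈ PI ⌊c * L ^ e⌋₊ ⌊L ^ e'⌋₊, (Nat.primeCounting (Yf L / p) : ℝ) ≤
      (J t e e' + δ) * (L ^ t / Real.log L) := by
  -- the number of cells
  have hJ0 : 0 ≤ J t e e' := by
    refine le_trans ?_ (J_low t e e' he hee het)
    apply div_nonneg (Real.log_nonneg (by rw [le_div_iff₀ he]; linarith)) (by linarith)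
  obtain ⟨K, hK⟩ := exists_nat_gt ((e' - e) * (J t e e' + 1) * 2 / (δ * (t - e')))
  have hte : 0 < t - e' := by linarith
  have hK0 : (0 : ℝ) < K := lt_of_le_of_lt (by
    have : 0 ≤ e' - e := by linarith
    positivity) hK
  set h : ℝ := (e' - e) / K with hh
  have hh0 : 0 ≤ h := div_nonneg (by linarith) hK0.le
  have hhK : K * h = e' - e := by rw [hh]; field_simp
  have hsm : h * (J t e e' + 1) * 2 ≤ δ * (t - e') := by
    rw [div_lt_iff₀ (by positivity)] at hK
    have : h * (J t e e' + 1) * 2 = ((e' - e) * (J t e e' + 1) * 2) / K := by rw [hh]; ring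
    rw [this, div_le_iff₀ hK0]
    linarith
  -- induction
  have key : ∀ i : ℕ, i ≤ K → ∀ δ' : ℝ, 0 < δ' → ∀ᶠ L : ℝ in atTop,
      ∑ p ∈ PI ⌊c * L ^ e⌋₊ ⌊L ^ (e + i * h)⌋₊, (Nat.primeCounting (Yf L / p) : ℝ) ≤
        ((1 + h / (t - e')) * J t e (e + i * h) + δ') * (L ^ t / Real.log L) := by
    intro i
    induction i with
    | zero =>
      intro _ δ' hδ'
      have h1 := cell_up t e e c δ' he le_rfl (by linarith) hc hc1 hδ' Yf hY
      rw [div_self he.ne', Real.log_one, zero_div] at h1
      simp only [Nat.cast_zero, zero_mul, add_zero]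
      rw [J_self t e he (by linarith), mul_zero]
      exact h1
    | succ i ih =>
      intro hi δ' hδ'
      have h1 := ih (by omega) (δ' / 2) (by positivity)
      have hi' : ((i : ℝ) + 1) * h ≤ e' - e := by
        rw [← hhK]
        have : ((i : ℝ) + 1) ≤ K := by exact_mod_cast hi
        gcongr
      have hi0 : 0 ≤ (i : ℝ) * h := by positivity
      have a1 : 0 < e + i * h := by linarith
      have a2 : e + i * h ≤ e + ((i + 1 : ℕ) : ℝ) * h := by push_cast; linarith
      have a3 : e + ((i + 1 : ℕ) : ℝ) * h < t := by push_cast; linarith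
      have h2 := cell_up t (e + i * h) (e + ((i + 1 : ℕ) : ℝ) * h) 1 (δ' / 2) a1 a2 a3 one_pos le_rfl (by positivity) Yf hY
      filter_upwards [h1, h2, eventually_gt_atTop (1 : ℝ)] with L h3 h4 h5
      have hLl : 0 ≤ L ^ t / Real.log L := by
        have := Real.log_pos h5
        positivity
      rw [one_mul] at h4
      rw [sum_split (fun p => (Nat.primeCounting (Yf L / p) : ℝ)) (floor_mono h5.le (by linarith : e ≤ e + i * h) hc1)
        (by
          have := floor_mono h5.le a2 (le_refl (1 : ℝ))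
          rwa [one_mul] at this)]
      have a4 : Real.log ((e + ((i + 1 : ℕ) : ℝ) * h) / (e + i * h)) / (t - (e + ((i + 1 : ℕ) : ℝ) * h)) ≤
          (1 + h / (t - e')) * J t (e + i * h) (e + ((i + 1 : ℕ) : ℝ) * h) := by
        have b1 := J_low t (e + i * h) (e + ((i + 1 : ℕ) : ℝ) * h) a1 a2 a3
        have b2 : 0 ≤ Real.log ((e + ((i + 1 : ℕ) : ℝ) * h) / (e + i * h)) :=
          Real.log_nonneg (by rw [le_div_iff₀ a1]; linarith)
        have b3 : 0 < t - (e + i * h) := by linarith
        have b4 : 0 < t - (e + ((i + 1 : ℕ) : ℝ) * h) := by linarith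
        have b5 : 1 / (t - (e + ((i + 1 : ℕ) : ℝ) * h)) ≤ (1 + h / (t - e')) * (1 / (t - (e + i * h))) := by
          have b6 : (1 + h / (t - e')) * (t - (e + ((i + 1 : ℕ) : ℝ) * h)) ≥ t - (e + i * h) := by
            have b7 : h / (t - e') * (t - (e + ((i + 1 : ℕ) : ℝ) * h)) ≥ h := by
              have b8 : t - e' ≤ t - (e + ((i + 1 : ℕ) : ℝ) * h) := by push_cast; linarith
              calc h = h / (t - e') * (t - e') := by field_simp
                _ ≤ _ := by gcongr
            have b9 : (1 + h / (t - e')) * (t - (e + ((i + 1 : ℕ) : ℝ) * h)) =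
              (t - (e + ((i + 1 : ℕ) : ℝ) * h)) + h / (t - e') * (t - (e + ((i + 1 : ℕ) : ℝ) * h)) := by ring
            rw [b9]
            push_cast at b7 ⊢
            linarith
          rw [mul_one_div, div_le_div_iff₀ b4 b3]
          linarith
        calc Real.log ((e + ((i + 1 : ℕ) : ℝ) * h) / (e + i * h)) / (t - (e + ((i + 1 : ℕ) : ℝ) * h))
            = Real.log ((e + ((i + 1 : ℕ) : ℝ) * h) / (e + i * h)) * (1 / (t - (e + ((i + 1 : ℕ) : ℝ) * h))) := by ring
          _ ≤ Real.log ((e + ((i + 1 : ℕ) : ℝ) * h) / (e + i * h)) * ((1 + h / (t - e')) * (1 / (t - (e + i * h)))) := by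
              gcongr
          _ = (1 + h / (t - e')) * (Real.log ((e + ((i + 1 : ℕ) : ℝ) * h) / (e + i * h)) / (t - (e + i * h))) := by ring
          _ ≤ _ := by gcongr
      have a5 := J_add t e (e + i * h) (e + ((i + 1 : ℕ) : ℝ) * h) he a1 (by linarith) (by linarith) (by linarith) a3
      calc _ ≤ ((1 + h / (t - e')) * J t e (e + i * h) + δ' / 2) * (L ^ t / Real.log L) +
            ((1 + h / (t - e')) * J t (e + i * h) (e + ((i + 1 : ℕ) : ℝ) * h) + δ' / 2) * (L ^ t / Real.log L) := by
            refine add_le_add h3 (h4.trans ?_)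
            gcongr
        _ = ((1 + h / (t - e')) * (J t e (e + i * h) + J t (e + i * h) (e + ((i + 1 : ℕ) : ℝ) * h)) + δ') *
              (L ^ t / Real.log L) := by ring
        _ = _ := by rw [a5]
  have h1 := key K le_rfl (δ / 2) (by positivity)
  have h2 : e + K * h = e' := by rw [hhK]; ring
  rw [h2] at h1
  filter_upwards [h1, eventually_gt_atTop (1 : ℝ)] with L h3 h5
  have hLl : 0 ≤ L ^ t / Real.log L := by
    have := Real.log_pos h5
    positivity
  refine h3.trans ?_
  have h6 : h / (t - e') * J t e e' ≤ δ / 2 := by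
    rw [div_mul_eq_mul_div, div_le_iff₀ hte]
    nlinarith only [hsm, hh0, hJ0]
  have h7 : (1 + h / (t - e')) * J t e e' + δ / 2 ≤ J t e e' + δ := by linarith only [h6]
  exact mul_le_mul_of_nonneg_right h7 hLl

/-- the sum over several cells, lower bound -/
theorem sum_lo (t e e' c δ : ℝ) (he : 0 < e) (hee : e ≤ e') (het : e' < t) (hc : 0 < c) (hc1 : c ≤ 1) (hδ : 0 < δ)
    (Yf : ℝ → ℕ) (hY : Tendsto (fun L : ℝ => (Yf L : ℝ) / L ^ t) atTop (𝓝 1)) :
    ∀ᶠ L : ℝ in atTop, (J t e e' - δ) * (L ^ t / Real.log L) ≤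
      ∑ p ∈ PI ⌊c * L ^ e⌋₊ ⌊L ^ e'⌋₊, (Nat.primeCounting (Yf L / p) : ℝ) := by
  have hJ0 : 0 ≤ J t e e' := by
    refine le_trans ?_ (J_low t e e' he hee het)
    apply div_nonneg (Real.log_nonneg (by rw [le_div_iff₀ he]; linarith)) (by linarith)
  obtain ⟨K, hK⟩ := exists_nat_gt ((e' - e) * (J t e e' + 1) * 2 / (δ * (t - e')))
  have hte : 0 < t - e' := by linarith
  have hK0 : (0 : ℝ) < K := lt_of_le_of_lt (by
    have : 0 ≤ e' - e := by linarith
    positivity) hK
  set h : ℝ := (e' - e) / K with hh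
  have hh0 : 0 ≤ h := div_nonneg (by linarith) hK0.le
  have hhK : K * h = e' - e := by rw [hh]; field_simp
  have hsm : h * (J t e e' + 1) * 2 ≤ δ * (t - e') := by
    rw [div_lt_iff₀ (by positivity)] at hK
    have : h * (J t e e' + 1) * 2 = ((e' - e) * (J t e e' + 1) * 2) / K := by rw [hh]; ring
    rw [this, div_le_iff₀ hK0]
    linarith
  have key : ∀ i : ℕ, i ≤ K → ∀ δ' : ℝ, 0 < δ' → ∀ᶠ L : ℝ in atTop,
      ((1 - h / (t - e')) * J t e (e + i * h) - δ') * (L ^ t / Real.log L) ≤
      ∑ p ∈ PI ⌊c * L ^ e⌋₊ ⌊L ^ (e + i * h)⌋₊, (Nat.primeCounting (Yf L / p) : ℝ) := by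
    intro i
    induction i with
    | zero =>
      intro _ δ' hδ'
      have h1 := cell_lo t e e c δ' he le_rfl (by linarith) hc hc1 hδ' Yf hY
      rw [div_self he.ne', Real.log_one, zero_div] at h1
      simp only [Nat.cast_zero, zero_mul, add_zero]
      rw [J_self t e he (by linarith), mul_zero]
      exact h1
    | succ i ih =>
      intro hi δ' hδ'
      have h1 := ih (by omega) (δ' / 2) (by positivity)
      have hi' : ((i : ℝ) + 1) * h ≤ e' - e := by
        rw [← hhK]
        have : ((i : ℝ) + 1) ≤ K := by exact_mod_cast hi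
        gcongr
      have hi0 : 0 ≤ (i : ℝ) * h := by positivity
      have a1 : 0 < e + i * h := by linarith
      have a2 : e + i * h ≤ e + ((i + 1 : ℕ) : ℝ) * h := by push_cast; linarith
      have a3 : e + ((i + 1 : ℕ) : ℝ) * h < t := by push_cast; linarith
      have h2 := cell_lo t (e + i * h) (e + ((i + 1 : ℕ) : ℝ) * h) 1 (δ' / 2) a1 a2 a3 one_pos le_rfl (by positivity) Yf hY
      filter_upwards [h1, h2, eventually_gt_atTop (1 : ℝ)] with L h3 h4 h5
      have hLl : 0 ≤ L ^ t / Real.log L := by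
        have := Real.log_pos h5
        positivity
      rw [one_mul] at h4
      rw [sum_split (fun p => (Nat.primeCounting (Yf L / p) : ℝ)) (floor_mono h5.le (by linarith : e ≤ e + i * h) hc1)
        (by
          have := floor_mono h5.le a2 (le_refl (1 : ℝ))
          rwa [one_mul] at this)]
      have a4 : (1 - h / (t - e')) * J t (e + i * h) (e + ((i + 1 : ℕ) : ℝ) * h) ≤
          Real.log ((e + ((i + 1 : ℕ) : ℝ) * h) / (e + i * h)) / (t - (e + i * h)) := by
        have b1 := J_up t (e + i * h) (e + ((i + 1 : ℕ) : ℝ) * h) a1 a2 a3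
        have b2 : 0 ≤ Real.log ((e + ((i + 1 : ℕ) : ℝ) * h) / (e + i * h)) :=
          Real.log_nonneg (by rw [le_div_iff₀ a1]; linarith)
        have b3 : 0 < t - (e + i * h) := by linarith
        have b4 : 0 < t - (e + ((i + 1 : ℕ) : ℝ) * h) := by linarith
        rcases le_or_gt (1 - h / (t - e')) 0 with hneg | hpos
        · have b5 : 0 ≤ J t (e + i * h) (e + ((i + 1 : ℕ) : ℝ) * h) :=
            le_trans (div_nonneg b2 b3.le) (J_low t (e + i * h) (e + ((i + 1 : ℕ) : ℝ) * h) a1 a2 a3)
          exact (mul_nonpos_of_nonpos_of_nonneg hneg b5).trans (div_nonneg b2 b3.le)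
        have b5 : (1 - h / (t - e')) * (1 / (t - (e + ((i + 1 : ℕ) : ℝ) * h))) ≤ 1 / (t - (e + i * h)) := by
          have b6 : (1 - h / (t - e')) * (t - (e + i * h)) ≤ t - (e + ((i + 1 : ℕ) : ℝ) * h) := by
            have b7 : h ≤ h / (t - e') * (t - (e + i * h)) := by
              have b8 : t - e' ≤ t - (e + i * h) := by linarith
              calc h = h / (t - e') * (t - e') := by field_simp
                _ ≤ _ := by gcongr
            have b9 : (1 - h / (t - e')) * (t - (e + i * h)) =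
              (t - (e + i * h)) - h / (t - e') * (t - (e + i * h)) := by ring
            rw [b9]
            push_cast
            linarith
          rw [mul_one_div, div_le_div_iff₀ b4 b3]
          linarith
        calc (1 - h / (t - e')) * J t (e + i * h) (e + ((i + 1 : ℕ) : ℝ) * h)
            ≤ (1 - h / (t - e')) * (Real.log ((e + ((i + 1 : ℕ) : ℝ) * h) / (e + i * h)) / (t - (e + ((i + 1 : ℕ) : ℝ) * h))) := by
              gcongr
          _ = Real.log ((e + ((i + 1 : ℕ) : ℝ) * h) / (e + i * h)) * ((1 - h / (t - e')) * (1 / (t - (e + ((i + 1 : ℕ) : ℝ) * h)))) := by ring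
          _ ≤ Real.log ((e + ((i + 1 : ℕ) : ℝ) * h) / (e + i * h)) * (1 / (t - (e + i * h))) := by gcongr
          _ = _ := by ring
      have a5 := J_add t e (e + i * h) (e + ((i + 1 : ℕ) : ℝ) * h) he a1 (by linarith) (by linarith) (by linarith) a3
      calc _ = ((1 - h / (t - e')) * J t e (e + i * h) - δ' / 2) * (L ^ t / Real.log L) +
            ((1 - h / (t - e')) * J t (e + i * h) (e + ((i + 1 : ℕ) : ℝ) * h) - δ' / 2) * (L ^ t / Real.log L) := by
            rw [← a5]; ring
        _ ≤ _ := by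
            refine add_le_add h3 (le_trans ?_ h4)
            gcongr
  have h1 := key K le_rfl (δ / 2) (by positivity)
  have h2 : e + K * h = e' := by rw [hhK]; ring
  rw [h2] at h1
  filter_upwards [h1, eventually_gt_atTop (1 : ℝ)] with L h3 h5
  have hLl : 0 ≤ L ^ t / Real.log L := by
    have := Real.log_pos h5
    positivity
  refine le_trans ?_ h3
  have h6 : h / (t - e') * J t e e' ≤ δ / 2 := by
    rw [div_mul_eq_mul_div, div_le_iff₀ hte]
    nlinarith only [hsm, hh0, hJ0]
  have h7 : J t e e' - δ ≤ (1 - h / (t - e')) * J t e e' - δ / 2 := by linarith only [h6]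
  exact mul_le_mul_of_nonneg_right h7 hLl

end Pool.Agent.R529.LD
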